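import Mathlib
import Pool.Agent.Helper48_LPY.Stmts
import Pool.Agent.Helper48_LPY.Basic

/-!
# LPY: module BPK
-/

set_option autoImplicit false

namespace Pool.Agent.LPY.H64

open Pool.Agent.LAX Pool.Agent.LPY

/-- The probability of a pick. -/
lemma pick_prob (hF : MarfStmt) (hE : MareStmt) {V : Type} [Fintype V] [DecidableEq V]
    {σ : Equiv.Perm V} {a : ℕ} (B : BS σ (2 ^ a)) (ha : 20 ≤ a) (hc : Cyc σ (2 ^ a)) (v : V) :
    ({η : V → Om a | v ∈ pk B η}.ncard : ℝ) ≤
      34 / 2 ^ a * ((Fintype.card (V → Om a) : ℕ) : ℝ) := by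
  obtain ⟨e, he⟩ := hE V σ a B ha
  have h1 : {η : V → Om a | v ∈ pk B η} ⊆ (⋃ i : Lab, {η | (v, i) ∈ FL B η}) ∪
      {η | isEnd B η v} := by
    intro η hη
    rcases hη with h | h
    · left
      exact Set.mem_iUnion.mpr ⟨tl B η v, h, rfl⟩
    · right
      exact h
  have h2 : {η : V → Om a | v ∈ pk B η}.ncard ≤
      (∑ i : Lab, {η : V → Om a | (v, i) ∈ FL B η}.ncard) + {η : V → Om a | isEnd B η v}.ncard :=
    (Set.ncard_le_ncard h1 (Set.toFinite _)).trans ((Set.ncard_union_le _ _).trans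
      (Nat.add_le_add_right (Set.ncard_iUnion_le_of_fintype _) _))
  have h3 : ({η : V → Om a | v ∈ pk B η}.ncard : ℝ) ≤
      (∑ i : Lab, ({η : V → Om a | (v, i) ∈ FL B η}.ncard : ℝ)) +
      ({η : V → Om a | isEnd B η v}.ncard : ℝ) := by exact_mod_cast h2
  refine h3.trans ?_
  set N : ℝ := ((Fintype.card (V → Om a) : ℕ) : ℝ) with hN
  have hN0 : 0 ≤ N := Nat.cast_nonneg _
  have h4 : (∑ i : Lab, ({η : V → Om a | (v, i) ∈ FL B η}.ncard : ℝ)) ≤
      4096 * (8 / 7 * rr a * N) := by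
    refine (Finset.sum_le_sum fun i _ => (hF V σ a B ha hc (v, i)).2).trans ?_
    rw [Finset.sum_const, Finset.card_univ, ZMod.card, nsmul_eq_mul]
    exact le_of_eq (by push_cast; ring)
  have h5 : ({η : V → Om a | isEnd B η v}.ncard : ℝ) ≤ 4096 * (rr a / 14) * N := by
    rw [(he v).2.2.1]
    refine mul_le_mul_of_nonneg_right ?_ hN0
    have := (he v).2.1
    linarith
  have h6 : 4096 * (8 / 7 * rr a * N) + 4096 * (rr a / 14) * N = 34 / 2 ^ a * N := by
    unfold rr
    rw [pow_add]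
    have : (2:ℝ) ^ a ≠ 0 := by positivity
    field_simp
    norm_num
    ring
  linarith

theorem bpk (hF : MarfStmt) (hE : MareStmt) : BpkStmt := by
  intro V _ _ a l C σ B y ha hC hcyc
  classical
  set N : ℝ := ((Fintype.card (V → Om a) : ℕ) : ℝ) with hN
  have hN0 : 0 ≤ N := Nat.cast_nonneg _
  let F : {c // c ∈ C} → (V → Om a) → ℝ := fun c η =>
    Real.exp (if y c ∈ pk (B c) η then 1 else 0)
  have hF0 : ∀ c η, 0 < F c η := fun c η => Real.exp_pos _
  -- the product formula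
  have hprod : ∑ ω : {c // c ∈ C} × V → Om a, ∏ c, F c (fun v => ω (c, v)) =
      ∏ c, ∑ η : V → Om a, F c η := by
    rw [Finset.prod_univ_sum, Fintype.piFinset_univ]
    exact Fintype.sum_equiv (Equiv.curry {c // c ∈ C} V (Om a)) _ _ (fun ω => rfl)
  -- one factor
  have hone : ∀ c : {c // c ∈ C}, ∑ η : V → Om a, F c η ≤
      N * Real.exp ((Real.exp 1 - 1) * (34 / 2 ^ a)) := by
    intro c
    have h1 : ∀ η : V → Om a, F c η = 1 + (Real.exp 1 - 1) *
        (if y c ∈ pk (B c) η then 1 else 0) := by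
      intro η
      simp only [F]
      split_ifs <;> simp
    simp only [h1]
    rw [Finset.sum_add_distrib, Finset.sum_const, Finset.card_univ, nsmul_eq_mul, mul_one,
      ← Finset.mul_sum, Finset.sum_boole]
    have h2 : ((Finset.univ.filter fun η : V → Om a => y c ∈ pk (B c) η).card : ℝ) ≤
        34 / 2 ^ a * N := by
      have := pick_prob hF hE (B c) ha (hcyc c) (y c)
      rw [← Set.ncard_coe_finset]
      convert this using 3
      ext η
      simp
    have h3 : (0 : ℝ) ≤ Real.exp 1 - 1 := by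
      have := Real.add_one_le_exp (1 : ℝ)
      linarith
    have h4 := mul_le_mul_of_nonneg_left h2 h3
    have h5 := Real.add_one_le_exp ((Real.exp 1 - 1) * (34 / 2 ^ a))
    have h6 := mul_le_mul_of_nonneg_left h5 hN0
    linarith
  have hall : ∏ c : {c // c ∈ C}, ∑ η : V → Om a, F c η ≤
      N ^ C.card * Real.exp ((2 : ℝ) ^ l) := by
    refine (Finset.prod_le_prod (fun c _ => Finset.sum_nonneg fun η _ => (hF0 c η).le)
      (fun c _ => hone c)).trans ?_
    rw [Finset.prod_const, Finset.card_univ, Fintype.card_coe, mul_pow, ← Real.exp_nat_mul]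
    refine mul_le_mul_of_nonneg_left (Real.exp_le_exp.mpr ?_) (pow_nonneg hN0 _)
    have h1 : (C.card : ℝ) ≤ 2 ^ (a + l - 6) := by exact_mod_cast hC
    have h2 : (2 : ℝ) ^ (a + l - 6) * 64 = 2 ^ a * 2 ^ l := by
      rw [show (64 : ℝ) = 2 ^ 6 by norm_num, ← pow_add, ← pow_add]
      congr 1
      omega
    have h3 : Real.exp 1 - 1 ≤ 1.72 := by
      have := Real.exp_one_lt_d9
      linarith
    have h3' : (0 : ℝ) ≤ Real.exp 1 - 1 := by
      have := Real.add_one_le_exp (1 : ℝ)
      linarith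
    have h4 : (0 : ℝ) < 2 ^ a := by positivity
    have h4' : (0 : ℝ) < 2 ^ l := by positivity
    calc (C.card : ℝ) * ((Real.exp 1 - 1) * (34 / 2 ^ a))
        ≤ 2 ^ (a + l - 6) * (1.72 * (34 / 2 ^ a)) := by
          refine mul_le_mul h1 (mul_le_mul_of_nonneg_right h3 (by positivity)) (by positivity)
            (by positivity)
      _ = (2 ^ (a + l - 6) * 64) * (1.72 * 34 / 64) / 2 ^ a := by ring
      _ = 2 ^ l * (1.72 * 34 / 64) := by
          rw [h2]
          field_simp
      _ ≤ 2 ^ l := by nlinarith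
  -- Markov
  set Bad : Set ({c // c ∈ C} × V → Om a) := {ω | 2 ^ (l + 4) <
      {c : {c // c ∈ C} | y c ∈ pk (B c) (fun v => ω (c, v))}.ncard} with hBad
  have hmark : (Bad.ncard : ℝ) * Real.exp (16 * (2 : ℝ) ^ l) ≤
      ∑ ω : {c // c ∈ C} × V → Om a, ∏ c, F c (fun v => ω (c, v)) := by
    have h1 : (Bad.ncard : ℝ) * Real.exp (16 * (2 : ℝ) ^ l) =
        ∑ ω : {c // c ∈ C} × V → Om a, if ω ∈ Bad then Real.exp (16 * (2 : ℝ) ^ l) else 0 := by
      rw [← Finset.sum_filter, Finset.sum_const, nsmul_eq_mul, ← Set.ncard_coe_finset]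
      congr 3
      ext ω
      simp
    rw [h1]
    refine Finset.sum_le_sum fun ω _ => ?_
    split_ifs with hω
    · have h2 : ∏ c, F c (fun v => ω (c, v)) = Real.exp
          ({c : {c // c ∈ C} | y c ∈ pk (B c) (fun v => ω (c, v))}.ncard : ℝ) := by
        simp only [F]
        rw [← Real.exp_sum, Finset.sum_boole, ← Set.ncard_coe_finset]
        congr 3
        ext c
        simp
      rw [h2]
      apply Real.exp_le_exp.mpr
      have h3 : 2 ^ (l + 4) <
        {c : {c // c ∈ C} | y c ∈ pk (B c) (fun v => ω (c, v))}.ncard := hω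
      have h4 : ((2 ^ (l + 4) : ℕ) : ℝ) <
        ({c : {c // c ∈ C} | y c ∈ pk (B c) (fun v => ω (c, v))}.ncard : ℝ) := by
        exact_mod_cast h3
      push_cast at h4
      rw [pow_add] at h4
      linarith
    · exact Finset.prod_nonneg fun c _ => (hF0 c _).le
  have hcard : ((Fintype.card ({c // c ∈ C} × V → Om a) : ℕ) : ℝ) = N ^ C.card := by
    rw [hN, ← Nat.cast_pow]
    congr 1
    rw [Fintype.card_fun, Fintype.card_fun, Fintype.card_prod {c // c ∈ C} V, Fintype.card_coe,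
      ← pow_mul, mul_comm]
  rw [hcard]
  have h1 := hmark.trans (hprod.le.trans hall)
  have h2 : Real.exp (-(15 * (2 : ℝ) ^ l)) * N ^ C.card * Real.exp (16 * (2 : ℝ) ^ l) =
      N ^ C.card * Real.exp ((2 : ℝ) ^ l) := by
    rw [mul_comm (Real.exp _) (N ^ C.card), mul_assoc, ← Real.exp_add]
    congr 2
    ring
  rw [← h2] at h1
  exact le_of_mul_le_mul_right h1 (Real.exp_pos _)

end Pool.Agent.LPY.H64
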