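import Mathlib
import Pool.Agent.Helper48_LPY.Stmts
import Pool.Agent.Helper48_LPY.Basic

/-!
# LPY: module BSUM
-/

set_option autoImplicit false

namespace Pool.Agent.LPY.H64

open Pool.Agent.LAX Pool.Agent.LPY

lemma nb_st {V : Type} {σ : Equiv.Perm V} {L : ℕ} (B : BS σ L) (v : V) :
    nb B (B.st v) = nb B v := by
  unfold nb
  rw [B.sst, B.nst]

lemma exists_last {V : Type} {σ : Equiv.Perm V} {L : ℕ} (B : BS σ L) (f : V) (hf : B.st f = f) :
    ∃ v, B.st v = f ∧ B.nx v = B.nx f ∧ σ v = B.nx f := by
  by_contra hne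
  push Not at hne
  have key : ∀ j : ℕ, B.bk ((σ ^ j) f) = j ∧ B.st ((σ ^ j) f) = f ∧
      B.nx ((σ ^ j) f) = B.nx f := by
    intro j
    induction j with
    | zero =>
      refine ⟨?_, hf, rfl⟩
      have := B.bst f
      rw [hf] at this
      simpa using this
    | succ j ih =>
      obtain ⟨h1, h2, h3⟩ := ih
      rw [pow_succ', Equiv.Perm.mul_apply]
      rcases B.step ((σ ^ j) f) with ⟨a1, a2, a3⟩ | ⟨a1, -⟩
      · exact ⟨by rw [a1, h1], by rw [a2, h2], by rw [a3, h3]⟩
      · exact absurd (a1.trans h3) (hne _ h2 h3)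
  have := B.lt ((σ ^ (2 * L)) f)
  rw [(key _).1] at this
  omega

lemma nx_inj {V : Type} {σ : Equiv.Perm V} {L : ℕ} (B : BS σ L) {f f' : V} (hf : B.st f = f)
    (hf' : B.st f' = f') (h : B.nx f = B.nx f') : f = f' := by
  obtain ⟨v, h1, -, h3⟩ := exists_last B f hf
  obtain ⟨v', h1', -, h3'⟩ := exists_last B f' hf'
  have : v = v' := σ.injective (by rw [h3, h3', h])
  rw [← h1, ← h1', this]

theorem bsum (hH : HoldStmt) : BsumStmt := by
  intro V α _ _ _ _ σ L B Y m hL hY hE
  classical
  let Φ := {f : V // B.st f = f}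
  let N : Φ → Φ := fun f => ⟨B.nx f.1, B.snx f.1⟩
  have hNinj : Function.Injective N := by
    intro f f' h
    apply Subtype.ext
    exact nx_inj B f.2 f'.2 (congrArg Subtype.val h)
  have hNbij : Function.Bijective N := Finite.injective_iff_bijective.mp hNinj
  let e : Φ ≃ Φ := Equiv.ofBijective N hNbij
  have he : ∀ f : Φ, (e f).1 = B.nx f.1 := fun f => rfl
  have hsum : ∀ g : V → ℝ, ∑ f : Φ, ∑ v, {v | B.st v = f.1}.indicator g v = ∑ v, g v := by
    intro g
    rw [Finset.sum_comm]
    refine Finset.sum_congr rfl fun v _ => ?_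
    rw [Finset.sum_eq_single (⟨B.st v, B.sst v⟩ : Φ)]
    · simp
    · intro f _ hf
      apply Set.indicator_of_notMem
      intro h
      apply hf
      apply Subtype.ext
      exact h.symm
    · intro h
      exact absurd (Finset.mem_univ _) h
  have key := hH V α Φ (fun f => nb B f.1)
    (fun f ω => ∑ v, {v | B.st v = f.1}.indicator (fun v => Y v ω) v)
    (fun f => ∑ v, {v | B.st v = f.1}.indicator m v) ?_ ?_ ?_
  · simp only [hsum] at key
    exact key
  · intro f ω ω' h
    refine Finset.sum_congr rfl fun v _ => ?_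
    by_cases hv : B.st v = f.1
    · rw [Set.indicator_of_mem (by exact hv), Set.indicator_of_mem (by exact hv)]
      apply hY
      intro v' hv'
      apply h
      rw [← hv, nb_st]
      exact hv'
    · rw [Set.indicator_of_notMem (by exact hv), Set.indicator_of_notMem (by exact hv)]
  · intro f
    have hsub : {f' : Φ | f' ≠ f ∧ ¬ Disjoint (nb B f.1) (nb B f'.1)} ⊆
        ({e f, e (e f), e.symm f, e.symm (e.symm f)} : Finset Φ) := by
      rintro f' ⟨hne, hd⟩
      rw [Set.not_disjoint_iff] at hd
      obtain ⟨v, h1, h2⟩ := hd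
      let g : Φ := ⟨B.st v, B.sst v⟩
      have hg : ∀ f0 : Φ, v ∈ nb B f0.1 → g = f0 ∨ g = e f0 ∨ e g = f0 := by
        intro f0 h0
        have h0' : B.st v = B.st f0.1 ∨ B.st v = B.nx f0.1 ∨ B.nx v = B.st f0.1 := h0
        rw [f0.2] at h0'
        rcases h0' with h | h | h
        · exact Or.inl (Subtype.ext h)
        · exact Or.inr (Or.inl (Subtype.ext h))
        · refine Or.inr (Or.inr (Subtype.ext ?_))
          show B.nx (B.st v) = f0.1
          rw [B.nst, h]
      have a1 := hg f h1
      have a2 := hg f' h2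
      simp only [Finset.coe_insert, Finset.coe_singleton, Set.mem_insert_iff,
        Set.mem_singleton_iff]
      rcases a1 with a1 | a1 | a1 <;> rcases a2 with a2 | a2 | a2
      · exact absurd (a2.symm.trans a1) hne
      · right; right; left
        rw [← a1, a2, Equiv.symm_apply_apply]
      · left
        rw [← a2, a1]
      · left
        rw [← a2, a1]
      · exact absurd (e.injective (a2.symm.trans a1)) hne
      · right; left
        rw [← a2, a1]
      · right; right; left
        rw [← a1, Equiv.symm_apply_apply, a2]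
      · right; right; right
        rw [← a1, Equiv.symm_apply_apply, a2, Equiv.symm_apply_apply]
      · exact absurd (a2.symm.trans a1) hne
    calc {f' : Φ | f' ≠ f ∧ ¬ Disjoint (nb B f.1) (nb B f'.1)}.ncard
        ≤ (({e f, e (e f), e.symm f, e.symm (e.symm f)} : Finset Φ) : Set Φ).ncard :=
          Set.ncard_le_ncard hsub (Finset.finite_toSet _)
      _ = ({e f, e (e f), e.symm f, e.symm (e.symm f)} : Finset Φ).card :=
          Set.ncard_coe_finset _
      _ ≤ 4 := Finset.card_le_four
      _ ≤ 7 := by norm_num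
  · intro f
    exact hE f.1 f.2

end Pool.Agent.LPY.H64
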