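import Mathlib
import Pool.Agent.Helper48_LPY.Stmts
import Pool.Agent.Helper48_LPY.Basic

/-!
# LPY: module CONE
-/

set_option autoImplicit false

namespace Pool.Agent.LPY.H64

open Pool.Agent.LAX Pool.Agent.LPY

set_option linter.unusedSectionVars false

section gen

variable {V : Type} [Fintype V]

lemma ncard_col (S : Set (V × Lab)) :
    (S.ncard : ℝ) = ∑ v, ({i : Lab | (v, i) ∈ S}.ncard : ℝ) := by
  classical
  have h1 : (S.ncard : ℝ) = ∑ p : V × Lab, if p ∈ S then (1 : ℝ) else 0 := by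
    rw [Finset.sum_boole, ← Set.ncard_coe_finset]
    congr 2
    ext p
    simp
  rw [h1, Fintype.sum_prod_type]
  refine Finset.sum_congr rfl fun v _ => ?_
  rw [Finset.sum_boole, ← Set.ncard_coe_finset]
  congr 2
  ext p
  simp

lemma part_col (S : Set (V × Lab)) [DecidablePred fun v : V => (∃ i, (v, i) ∈ S) ∧ ∃ i, (v, i) ∉ S] :
    (part S : ℝ) = ∑ v, if ((∃ i, (v, i) ∈ S) ∧ ∃ i, (v, i) ∉ S) then (1 : ℝ) else 0 := by
  rw [Finset.sum_boole, ← Set.ncard_coe_finset]
  unfold part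
  congr 2
  ext p
  simp

lemma col_sub (S S' : Set (V × Lab)) (v : V) :
    ({i : Lab | (v, i) ∈ S}.ncard : ℝ) - ({i : Lab | (v, i) ∈ S'}.ncard : ℝ) =
      ({i : Lab | (v, i) ∈ S \ S'}.ncard : ℝ) - ({i : Lab | (v, i) ∈ S' \ S}.ncard : ℝ) := by
  have h1 := Set.ncard_inter_add_ncard_sdiff_eq_ncard {i : Lab | (v, i) ∈ S} {i : Lab | (v, i) ∈ S'}
    (Set.toFinite _)
  have h2 := Set.ncard_inter_add_ncard_sdiff_eq_ncard {i : Lab | (v, i) ∈ S'} {i : Lab | (v, i) ∈ S}
    (Set.toFinite _)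
  rw [Set.inter_comm] at h2
  have h3 : {i : Lab | (v, i) ∈ S} \ {i : Lab | (v, i) ∈ S'} = {i : Lab | (v, i) ∈ S \ S'} := rfl
  have h4 : {i : Lab | (v, i) ∈ S'} \ {i : Lab | (v, i) ∈ S} = {i : Lab | (v, i) ∈ S' \ S} := rfl
  rw [h3] at h1
  rw [h4] at h2
  have h1' : (({i : Lab | (v, i) ∈ S} ∩ {i : Lab | (v, i) ∈ S'}).ncard : ℝ) +
      ({i : Lab | (v, i) ∈ S \ S'}.ncard : ℝ) = ({i : Lab | (v, i) ∈ S}.ncard : ℝ) := by
    exact_mod_cast h1
  have h2' : (({i : Lab | (v, i) ∈ S} ∩ {i : Lab | (v, i) ∈ S'}).ncard : ℝ) +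
      ({i : Lab | (v, i) ∈ S' \ S}.ncard : ℝ) = ({i : Lab | (v, i) ∈ S'}.ncard : ℝ) := by
    exact_mod_cast h2
  linarith

end gen

section main

variable {V : Type} [Fintype V] [DecidableEq V] {σ : Equiv.Perm V} {a : ℕ} (B : BS σ (2 ^ a))

open Classical in
/-- The indicator of `(v, t v)` being an end node in `S`. -/
noncomputable def Dn (t : (V → Om a) → V → Lab) (S : Set (V × Lab)) (ω : V → Om a) (v : V) : ℝ :=
  if isEnd B ω v ∧ (v, t ω v) ∈ S then 1 else 0

lemma sum_Dn (t : (V → Om a) → V → Lab) (S : Set (V × Lab)) (ω : V → Om a) :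
    (({p : V × Lab | isEnd B ω p.1 ∧ t ω p.1 = p.2} ∩ S).ncard : ℝ) = ∑ v, Dn B t S ω v := by
  classical
  have h : {p : V × Lab | isEnd B ω p.1 ∧ t ω p.1 = p.2} ∩ S =
      (fun v => (v, t ω v)) '' {v | isEnd B ω v ∧ (v, t ω v) ∈ S} := by
    ext ⟨v, i⟩
    simp only [Set.mem_inter_iff, Set.mem_ofPred_eq, Set.mem_image, Prod.mk.injEq]
    constructor
    · rintro ⟨⟨h1, h2⟩, h3⟩
      exact ⟨v, ⟨h1, by rw [h2]; exact h3⟩, rfl, h2⟩
    · rintro ⟨v', ⟨h1, h2⟩, rfl, h3⟩
      exact ⟨⟨h1, h3⟩, by rw [← h3]; exact h2⟩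
  rw [h, Set.ncard_image_of_injective _ (fun x y hxy => congrArg Prod.fst hxy)]
  unfold Dn
  rw [Finset.sum_boole, ← Set.ncard_coe_finset]
  congr 2
  ext p
  simp

lemma expect_Dn (t : (V → Om a) → V → Lab) (S : Set (V × Lab)) (v : V) (e : ℝ)
    (he : ∀ i, ({ω : V → Om a | isEnd B ω v ∧ t ω v = i}.ncard : ℝ) =
      e * Fintype.card (V → Om a)) :
    ∑ ω, Dn B t S ω v = e * ({i : Lab | (v, i) ∈ S}.ncard : ℝ) * Fintype.card (V → Om a) := by
  classical
  have h1 : ∀ ω, Dn B t S ω v = ∑ i : Lab, if (v, i) ∈ S then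
      (if isEnd B ω v ∧ t ω v = i then (1 : ℝ) else 0) else 0 := by
    intro ω
    rw [Finset.sum_eq_single (t ω v)]
    · unfold Dn
      by_cases h1 : isEnd B ω v <;> by_cases h2 : (v, t ω v) ∈ S <;> simp [h1, h2]
    · intro i _ hi
      have : ¬ (isEnd B ω v ∧ t ω v = i) := fun h => hi h.2.symm
      simp [this]
    · intro h
      exact absurd (Finset.mem_univ _) h
  simp only [h1]
  rw [Finset.sum_comm]
  have h2 : ∀ i : Lab, (∑ ω : V → Om a, if (v, i) ∈ S then
      (if isEnd B ω v ∧ t ω v = i then (1 : ℝ) else 0) else 0) =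
      if (v, i) ∈ S then e * Fintype.card (V → Om a) else 0 := by
    intro i
    by_cases hi : (v, i) ∈ S
    · simp only [hi, if_true]
      rw [← he i, Finset.sum_boole, ← Set.ncard_coe_finset]
      congr 2
      ext p
      simp
    · simp [hi]
  rw [Finset.sum_congr rfl fun i _ => h2 i, ← Finset.sum_filter, Finset.sum_const, nsmul_eq_mul,
    ← Set.ncard_coe_finset]
  have h3 : ((Finset.univ.filter fun i : Lab => (v, i) ∈ S : Finset Lab) : Set Lab) =
      {i : Lab | (v, i) ∈ S} := by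
    ext i
    simp
  rw [h3]
  ring

lemma Dn_nonneg (t : (V → Om a) → V → Lab) (S : Set (V × Lab)) (ω : V → Om a) (v : V) :
    0 ≤ Dn B t S ω v := by
  unfold Dn
  split_ifs <;> norm_num

open Classical in
lemma abs_Dn (t1 t2 : (V → Om a) → V → Lab) (S S' : Set (V × Lab)) (ω : V → Om a) (v : V) :
    |Dn B t1 S ω v - Dn B t2 S' ω v| ≤ if isEnd B ω v ∧
      ¬ ((∀ i, (v, i) ∈ S) ∧ ∀ i, (v, i) ∈ S') ∧ ¬ ((∀ i, (v, i) ∉ S) ∧ ∀ i, (v, i) ∉ S')
      then 1 else 0 := by
  by_cases h1 : isEnd B ω v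
  · by_cases h2 : ¬ ((∀ i, (v, i) ∈ S) ∧ ∀ i, (v, i) ∈ S') ∧
      ¬ ((∀ i, (v, i) ∉ S) ∧ ∀ i, (v, i) ∉ S')
    · rw [if_pos ⟨h1, h2⟩]
      unfold Dn
      split_ifs <;> norm_num
    · rw [if_neg (fun h => h2 h.2)]
      rw [not_and_or, not_not, not_not] at h2
      unfold Dn
      rcases h2 with ⟨h2, h3⟩ | ⟨h2, h3⟩
      · simp [h1, h2, h3]
      · simp [h2, h3]
  · unfold Dn
    simp [h1]

/-- The main estimate for general tail functions. -/
theorem cone_gen (hB : BsumStmt) (t1 t2 : (V → Om a) → V → Lab) (S S' : Set (V × Lab))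
    (ha : 20 ≤ a) (e : V → ℝ) (he0 : ∀ v, 0 ≤ e v) (he1 : ∀ v, e v ≤ rr a / 14)
    (heE : ∀ v, ({ω : V → Om a | isEnd B ω v}.ncard : ℝ) =
      4096 * e v * Fintype.card (V → Om a))
    (h1 : ∀ v i, ({ω : V → Om a | isEnd B ω v ∧ t1 ω v = i}.ncard : ℝ) =
      e v * Fintype.card (V → Om a))
    (h2 : ∀ v i, ({ω : V → Om a | isEnd B ω v ∧ t2 ω v = i}.ncard : ℝ) =
      e v * Fintype.card (V → Om a))
    (hone : ∀ ω f, {v | B.st v = f ∧ isEnd B ω v}.ncard ≤ 1)
    (hloc : ∀ v (ω ω' : V → Om a), (∀ v' ∈ nb B v, ω v' = ω' v') →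
      (isEnd B ω v ↔ isEnd B ω' v) ∧ t1 ω v = t1 ω' v ∧ t2 ω v = t2 ω' v) :
    ∑ ω : V → Om a, Real.exp (th *
      ((({p : V × Lab | isEnd B ω p.1 ∧ t1 ω p.1 = p.2} ∩ S).ncard : ℝ) -
        ({p : V × Lab | isEnd B ω p.1 ∧ t2 ω p.1 = p.2} ∩ S').ncard)) ≤
    Fintype.card (V → Om a) * Real.exp (th * (rr a / 12 * (S \ S').ncard +
      rr a / 100 * (part S + (S' \ S).ncard))) := by
  classical
  set N : ℝ := ((Fintype.card (V → Om a) : ℕ) : ℝ) with hN
  have hN0 : 0 ≤ N := Nat.cast_nonneg _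
  -- the columns which are not both full and not both empty
  let c : V → ℝ := fun v => if ¬ ((∀ i, (v, i) ∈ S) ∧ ∀ i, (v, i) ∈ S') ∧
    ¬ ((∀ i, (v, i) ∉ S) ∧ ∀ i, (v, i) ∉ S') then 1 else 0
  let m : V → ℝ := fun v => e v * (({i : Lab | (v, i) ∈ S}.ncard : ℝ) -
    ({i : Lab | (v, i) ∈ S'}.ncard : ℝ)) + 8 * th * (4096 * e v * c v)
  let Y : V → (V → Om a) → ℝ := fun v ω => Dn B t1 S ω v - Dn B t2 S' ω v
  have hY1 : ∀ v, ∑ ω, Y v ω = e v * (({i : Lab | (v, i) ∈ S}.ncard : ℝ) -
      ({i : Lab | (v, i) ∈ S'}.ncard : ℝ)) * N := by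
    intro v
    simp only [Y, Finset.sum_sub_distrib]
    rw [expect_Dn B t1 S v (e v) (h1 v), expect_Dn B t2 S' v (e v) (h2 v)]
    ring
  have hY2 : ∀ v, ∑ ω, |Y v ω| ≤ 4096 * e v * c v * N := by
    intro v
    have h3 : ∀ ω ∈ (Finset.univ : Finset (V → Om a)), |Y v ω| ≤
        c v * (if isEnd B ω v then 1 else 0) := by
      intro ω _
      refine (abs_Dn B t1 t2 S S' ω v).trans (le_of_eq ?_)
      simp only [c]
      by_cases h3 : isEnd B ω v <;> simp [h3]
    refine (Finset.sum_le_sum h3).trans (le_of_eq ?_)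
    rw [← Finset.mul_sum, Finset.sum_boole]
    have h4 : ((Finset.univ.filter fun ω : V → Om a => isEnd B ω v).card : ℝ) =
        ({ω : V → Om a | isEnd B ω v}.ncard : ℝ) := by
      rw [← Set.ncard_coe_finset]
      congr 2
      ext p
      simp
    rw [h4, heE v]
    ring
  have hYend : ∀ v ω, |Y v ω| ≤ if isEnd B ω v then 1 else 0 := by
    intro v ω
    refine (abs_Dn B t1 t2 S S' ω v).trans ?_
    by_cases h3 : isEnd B ω v
    · rw [if_pos h3]
      split_ifs <;> norm_num
    · simp [h3]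
  have hth : th = 1 / 2 ^ 20 := rfl
  have key := hB V (Om a) σ (2 ^ a) B (fun v ω => th * Y v ω) (fun v => th * m v)
    Nat.one_le_two_pow ?_ ?_
  · have e1 : ∀ ω : V → Om a, th *
        ((({p : V × Lab | isEnd B ω p.1 ∧ t1 ω p.1 = p.2} ∩ S).ncard : ℝ) -
        ({p : V × Lab | isEnd B ω p.1 ∧ t2 ω p.1 = p.2} ∩ S').ncard) = ∑ v, th * Y v ω := by
      intro ω
      rw [sum_Dn B t1 S ω, sum_Dn B t2 S' ω, ← Finset.mul_sum, Finset.sum_sub_distrib]
    simp only [e1]
    refine key.trans ?_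
    refine mul_le_mul_of_nonneg_left (Real.exp_le_exp.mpr ?_) hN0
    rw [← Finset.mul_sum]
    refine mul_le_mul_of_nonneg_left ?_ th_pos.le
    -- the sum of the means
    have hr : 0 < rr a := rr_pos a
    rw [ncard_col (S \ S'), ncard_col (S' \ S), part_col S, Finset.mul_sum, mul_add,
      Finset.mul_sum, Finset.mul_sum, ← Finset.sum_add_distrib, ← Finset.sum_add_distrib]
    refine Finset.sum_le_sum fun v _ => ?_
    simp only [m]
    rw [col_sub]
    set x : ℝ := ({i : Lab | (v, i) ∈ S \ S'}.ncard : ℝ) with hx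
    set y : ℝ := ({i : Lab | (v, i) ∈ S' \ S}.ncard : ℝ) with hy
    have hx0 : 0 ≤ x := Nat.cast_nonneg _
    have hy0 : 0 ≤ y := Nat.cast_nonneg _
    have hc : c v ≤ (if ((∃ i, (v, i) ∈ S) ∧ ∃ i, (v, i) ∉ S) then (1 : ℝ) else 0) + x + y := by
      by_cases hp : (∃ i, (v, i) ∈ S) ∧ ∃ i, (v, i) ∉ S
      · rw [if_pos hp]
        simp only [c]
        split_ifs <;> linarith
      · rw [if_neg hp]
        rw [not_and_or] at hp
        push Not at hp
        simp only [c]
        split_ifs with hcc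
        · rcases hp with hp | hp
          · -- column of S empty
            have : ∃ i, (v, i) ∈ S' := by
              by_contra hcon
              push Not at hcon
              exact hcc.2 ⟨hp, hcon⟩
            obtain ⟨i, hi⟩ := this
            have : 1 ≤ y := by
              rw [hy]
              have : 0 < {i : Lab | (v, i) ∈ S' \ S}.ncard := by
                rw [Set.ncard_pos (Set.toFinite _)]
                exact ⟨i, hi, hp i⟩
              exact_mod_cast this
            linarith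
          · have : ∃ i, (v, i) ∉ S' := by
              by_contra hcon
              push Not at hcon
              exact hcc.1 ⟨hp, hcon⟩
            obtain ⟨i, hi⟩ := this
            have : 1 ≤ x := by
              rw [hx]
              have : 0 < {i : Lab | (v, i) ∈ S \ S'}.ncard := by
                rw [Set.ncard_pos (Set.toFinite _)]
                exact ⟨i, hp i, hi⟩
              exact_mod_cast this
            linarith
        · linarith
    have hp0 : 0 ≤ (if ((∃ i, (v, i) ∈ S) ∧ ∃ i, (v, i) ∉ S) then (1 : ℝ) else 0) := by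
      split_ifs <;> norm_num
    set pv : ℝ := (if ((∃ i, (v, i) ∈ S) ∧ ∃ i, (v, i) ∉ S) then (1 : ℝ) else 0) with hpv
    have q0 := he0 v
    have q1 := he1 v
    have g1 : e v * (4096 * c v * (8 * th)) ≤ e v * ((pv + x + y) / 32) := by
      refine mul_le_mul_of_nonneg_left ?_ q0
      rw [hth]
      norm_num
      linarith
    have g2 : e v * (x - y) ≤ e v * x := mul_le_mul_of_nonneg_left (by linarith) q0
    have g3 : e v * ((pv + x + y) / 32 + x) ≤ rr a / 14 * ((pv + x + y) / 32 + x) :=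
      mul_le_mul_of_nonneg_right q1 (by linarith)
    have g4 : rr a / 14 * ((pv + x + y) / 32 + x) ≤
        rr a / 12 * x + (rr a / 100 * pv + rr a / 100 * y) := by
      have h01 : 0 ≤ rr a * x := mul_nonneg hr.le hx0
      have h02 : 0 ≤ rr a * y := mul_nonneg hr.le hy0
      have h03 : 0 ≤ rr a * pv := mul_nonneg hr.le hp0
      nlinarith
    calc e v * (x - y) + 8 * th * (4096 * e v * c v)
        = e v * (x - y) + e v * (4096 * c v * (8 * th)) := by ring
      _ ≤ e v * x + e v * ((pv + x + y) / 32) := add_le_add g2 g1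
      _ = e v * ((pv + x + y) / 32 + x) := by ring
      _ ≤ _ := g3.trans g4
  · -- locality
    intro v ω ω' h
    obtain ⟨a1, a2, a3⟩ := hloc v ω ω' h
    show th * (Dn B t1 S ω v - Dn B t2 S' ω v) = th * (Dn B t1 S ω' v - Dn B t2 S' ω' v)
    unfold Dn
    rw [a2, a3]
    simp only [a1]
  · -- one block
    intro f hf
    set bl : Set V := {v | B.st v = f} with hbl
    have hsplit : ∀ g : V → ℝ, (∑ v, bl.indicator (fun v => th * g v) v) =
        th * ∑ v, bl.indicator g v := by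
      intro g
      rw [Finset.mul_sum]
      refine Finset.sum_congr rfl fun v _ => ?_
      by_cases hv : v ∈ bl
      · simp [hv]
      · simp [hv]
    have hAle : ∀ ω : V → Om a, ∑ v, bl.indicator (fun v => |Y v ω|) v ≤ 1 := by
      intro ω
      have h3 : ∀ v ∈ (Finset.univ : Finset V), bl.indicator (fun v => |Y v ω|) v ≤
          if v ∈ bl ∧ isEnd B ω v then 1 else 0 := by
        intro v _
        by_cases hv : v ∈ bl
        · rw [Set.indicator_of_mem hv]
          refine (hYend v ω).trans (le_of_eq ?_)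
          simp [hv]
        · simp [hv]
      refine (Finset.sum_le_sum h3).trans ?_
      rw [Finset.sum_boole, ← Set.ncard_coe_finset]
      have h4 : ((Finset.univ.filter fun v : V => v ∈ bl ∧ isEnd B ω v : Finset V) : Set V) =
          {v | B.st v = f ∧ isEnd B ω v} := by
        ext v
        simp [hbl]
      rw [h4]
      exact_mod_cast hone ω f
    have hpoint : ∀ ω : V → Om a, Real.exp (8 * (th * ∑ v, bl.indicator (fun v => Y v ω) v)) ≤
        1 + 8 * th * (∑ v, bl.indicator (fun v => Y v ω) v) +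
          (8 * th) ^ 2 * ∑ v, bl.indicator (fun v => |Y v ω|) v := by
      intro ω
      set W := ∑ v, bl.indicator (fun v => Y v ω) v with hW
      set A := ∑ v, bl.indicator (fun v => |Y v ω|) v with hA
      have hWA : |W| ≤ A := by
        rw [hW, hA]
        refine (Finset.abs_sum_le_sum_abs _ _).trans (Finset.sum_le_sum fun v _ => ?_)
        by_cases hv : v ∈ bl
        · simp [hv]
        · simp [hv]
      have hA1 : A ≤ 1 := hAle ω
      have h5 : |8 * (th * W)| ≤ 1 := by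
        rw [abs_mul, abs_mul, abs_of_pos th_pos, hth]
        norm_num
        linarith
      have h6 := Real.abs_exp_sub_one_sub_id_le h5
      have h7 := (abs_le.mp h6).2
      have h8 : (8 * (th * W)) ^ 2 ≤ (8 * th) ^ 2 * A := by
        have : W ^ 2 ≤ A := by
          rw [← sq_abs]
          have := abs_nonneg W
          nlinarith
        calc (8 * (th * W)) ^ 2 = (8 * th) ^ 2 * W ^ 2 := by ring
          _ ≤ _ := mul_le_mul_of_nonneg_left this (by positivity)
      linarith
    have hswap : ∀ g : V → (V → Om a) → ℝ, ∑ ω : V → Om a, ∑ v, bl.indicator (fun v => g v ω) v =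
        ∑ v, bl.indicator (fun v => ∑ ω : V → Om a, g v ω) v := by
      intro g
      rw [Finset.sum_comm]
      refine Finset.sum_congr rfl fun v _ => ?_
      by_cases hv : v ∈ bl
      · simp [hv]
      · simp [hv]
    simp only [hsplit]
    refine (Finset.sum_le_sum fun ω _ => hpoint ω).trans ?_
    rw [Finset.sum_add_distrib, Finset.sum_add_distrib, Finset.sum_const, Finset.card_univ,
      nsmul_eq_mul, mul_one, ← Finset.mul_sum, ← Finset.mul_sum, hswap, hswap]
    have h9 : N + 8 * th * (∑ v, bl.indicator (fun v => ∑ ω, Y v ω) v) +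
        (8 * th) ^ 2 * (∑ v, bl.indicator (fun v => ∑ ω, |Y v ω|) v) ≤
        N * (1 + 8 * (th * ∑ v, bl.indicator m v)) := by
      have h10 : (∑ v, bl.indicator (fun v => ∑ ω, Y v ω) v) +
          8 * th * (∑ v, bl.indicator (fun v => ∑ ω, |Y v ω|) v) ≤
          N * ∑ v, bl.indicator m v := by
        rw [Finset.mul_sum, Finset.mul_sum, ← Finset.sum_add_distrib]
        refine Finset.sum_le_sum fun v _ => ?_
        by_cases hv : v ∈ bl
        · simp only [Set.indicator_of_mem hv]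
          rw [hY1 v]
          simp only [m]
          have := mul_le_mul_of_nonneg_left (hY2 v) (by have := th_pos; positivity : (0:ℝ) ≤ 8 * th)
          linarith
        · simp [hv]
      have := mul_le_mul_of_nonneg_left h10 (by have := th_pos; positivity : (0:ℝ) ≤ 8 * th)
      nlinarith
    refine h9.trans ?_
    refine mul_le_mul_of_nonneg_left ?_ hN0
    have := Real.add_one_le_exp (8 * (th * ∑ v, bl.indicator m v))
    linarith

end main

theorem cone (hB : BsumStmt) (hM : MareStmt) (hC : CnbStmt) (hL : LocStmt) : ConeStmt := by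
  intro V _ _ σ a B S S' ha hcyc
  obtain ⟨e, he⟩ := hM V σ a B ha
  have hET : ∀ v i, {ω : V → Om a | isEnd B ω v ∧ tl B ω v = i} =
      {ω | (v, i) ∈ ET B ω} := fun v i => rfl
  have hEH : ∀ v i, {ω : V → Om a | isEnd B ω v ∧ hl B ω v = i} =
      {ω | (v, i) ∈ EH B ω} := fun v i => rfl
  constructor
  · exact cone_gen B hB (fun ω => tl B ω) (fun ω => hl B ω) S S' ha e (fun v => (he v).1)
      (fun v => (he v).2.1) (fun v => (he v).2.2.1)
      (fun v i => ((he v).2.2.2 i).1) (fun v i => ((he v).2.2.2 i).2)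
      (fun ω f => (hC V σ a B ω (by omega) hcyc f).2)
      (fun v ω ω' h => by
        obtain ⟨-, h2, h3, h4⟩ := hL V σ a B ω ω' v (by omega) h
        exact ⟨h2, h3, h4⟩)
  · exact cone_gen B hB (fun ω => hl B ω) (fun ω => tl B ω) S S' ha e (fun v => (he v).1)
      (fun v => (he v).2.1) (fun v => (he v).2.2.1)
      (fun v i => ((he v).2.2.2 i).2) (fun v i => ((he v).2.2.2 i).1)
      (fun ω f => (hC V σ a B ω (by omega) hcyc f).2)
      (fun v ω ω' h => by
        obtain ⟨-, h2, h3, h4⟩ := hL V σ a B ω ω' v (by omega) h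
        exact ⟨h2, h4, h3⟩)

end Pool.Agent.LPY.H64
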